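import Pool.Agent.Results.MP_795114_nt.FrobeniusGraph

/-!
# Manin-Mumford fails for products with an arbitrary Drinfeld module

Let `ψ` be any Drinfeld `A`-module over `K` and `s = q ^ k` with `k ≥ 1`. Let `u` be the element of
`K{τ}` whose coefficients are the `s`-th roots of the coefficients of `ψ_T`, so that
`u(x) ^ s = ψ_T(x ^ s)`. The `s`-fold iterate of `u` has linear coefficient `T` and defines a Drinfeld
module `φ`. For `a` in `A = 𝔽_q[T]` we have `φ_a = a(u) ^ s` (iterate) and `ψ_a(x ^ s) = (a(u) x) ^ s`,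
so `x ↦ x ^ s` maps the torsion of `φ` onto the torsion of `ψ`, and the irreducible `q`-variety
`{y = x ^ s}` in the `A`-module `K²`, `(x, y) ↦ (φ_a(x), ψ_a(y))`, contains infinitely many torsion
points, but every `A`-module in it is finite.
-/

set_option autoImplicit false

open Polynomial

namespace Pool.Agent.Results.MP_795114_nt.EveryDrinfeldModule

open Pool.Agent.Results.MP_795114_nt.FrobeniusGraph

/-- A Drinfeld module over `K` (with `A = 𝔽_q[X] → K`, `X ↦ T`): a ring homomorphism
`φ : A → K{τ}` (the multiplication of `K{τ}` is the composition of polynomials, its unit is the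
polynomial `X`) such that the coefficient of `X` in `φ_a` is the image of `a` in `K`, and
`φ_T ≠ T X`. -/
structure DrinfeldModule (Fq : Type*) [Field Fq] {K : Type*} [Field K] [Algebra Fq K] (T : K) where
  /-- the homomorphism -/
  φ : Fq[X] → K[X]
  isQPoly : ∀ a, IsQPoly (Nat.card Fq) (φ a)
  map_one : φ 1 = X
  map_add : ∀ a b, φ (a + b) = φ a + φ b
  map_mul : ∀ a b, φ (a * b) = (φ a).comp (φ b)
  coeff_one : ∀ a, (φ a).coeff 1 = aeval T a
  ne : φ X ≠ C T * X

/-- The torsion points of a Drinfeld module. -/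
def DrinfeldModule.Tor {Fq : Type*} [Field Fq] {K : Type*} [Field K] [Algebra Fq K] {T : K}
    (φ : DrinfeldModule Fq T) : Set K :=
  {x | ∃ a : Fq[X], a ≠ 0 ∧ (φ.φ a).eval x = 0}

/-! ### `q`-polynomials as operators -/

section ops

variable {Fq : Type*} [Field Fq] [Finite Fq] {K : Type*} [Field K] [Algebra Fq K]

theorem frob_pow_apply (i : ℕ) (x : K) : (frob Fq K ^ i) x = x ^ (Nat.card Fq ^ i) := by
  induction i with
  | zero => simp
  | succ i ih =>
    rw [pow_succ', Module.End.mul_apply, ih, pow_succ, pow_mul]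
    rfl

/-- A `q`-polynomial is the sum of its terms `a_i X ^ (q ^ i)`. -/
theorem qpoly_eq {P : K[X]} (h : IsQPoly (Nat.card Fq) P) :
    P = ∑ i ∈ Finset.range (P.natDegree + 1), C (P.coeff (Nat.card Fq ^ i)) * X ^ (Nat.card Fq ^ i) := by
  have hq : 1 < Nat.card Fq := one_lt_card
  ext m
  rw [finsetSum_coeff]
  simp only [coeff_C_mul, coeff_X_pow]
  by_cases hm : P.coeff m = 0
  · rw [hm]
    symm
    apply Finset.sum_eq_zero
    intro i _
    split_ifs with h1
    · rw [← h1, hm, zero_mul]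
    · rw [mul_zero]
  · obtain ⟨j, hj⟩ := h m hm
    have h1 : m ≤ P.natDegree := le_natDegree_of_ne_zero hm
    have h2 : j < Nat.card Fq ^ j := Nat.lt_pow_self hq
    rw [Finset.sum_eq_single j]
    · rw [if_pos hj, mul_one, ← hj]
    · intro i _ hij
      rw [if_neg, mul_zero]
      intro h3
      apply hij
      have h4 : Nat.card Fq ^ j = Nat.card Fq ^ i := by rw [← hj, ← h3]
      exact (Nat.pow_right_injective hq h4).symm
    · intro h3
      exfalso
      apply h3
      rw [Finset.mem_range]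
      omega

/-- The operator of a polynomial. -/
noncomputable def opr (Fq : Type*) [Field Fq] [Finite Fq] [Algebra Fq K] (P : K[X]) :
    Module.End Fq K :=
  ∑ i ∈ Finset.range (P.natDegree + 1),
    LinearMap.mulLeft Fq (P.coeff (Nat.card Fq ^ i)) * frob Fq K ^ i

theorem opr_apply {P : K[X]} (h : IsQPoly (Nat.card Fq) P) (x : K) : opr Fq P x = P.eval x := by
  conv_rhs => rw [qpoly_eq h]
  rw [opr, LinearMap.sum_apply, eval_finsetSum]
  refine Finset.sum_congr rfl fun i _ => ?_
  rw [Module.End.mul_apply, LinearMap.mulLeft_apply, frob_pow_apply, eval_mul, eval_C, eval_pow,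
    eval_X]

theorem rep_opr {P : K[X]} (h : IsQPoly (Nat.card Fq) P) : Rep (opr Fq P) (P.coeff 1) :=
  ⟨P, h, rfl, opr_apply h⟩

theorem Rep.frob_pow {L : Module.End Fq K} {c : K} (h : Rep L c) (i : ℕ) :
    Rep (frob Fq K ^ i * L) (if i = 0 then c else 0) := by
  cases i with
  | zero => simpa using h
  | succ i =>
    rw [if_neg (Nat.succ_ne_zero i)]
    induction i with
    | zero =>
      rw [zero_add, pow_one]
      exact h.frob
    | succ i ih =>
      rw [pow_succ', mul_assoc]
      exact ih.frob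

theorem Rep.sum {ι : Type*} (s : Finset ι) (L : ι → Module.End Fq K) (c : ι → K)
    (h : ∀ i ∈ s, Rep (L i) (c i)) : Rep (∑ i ∈ s, L i) (∑ i ∈ s, c i) := by
  classical
  induction s using Finset.induction_on with
  | empty => simpa using rep_zero (Fq := Fq) (K := K)
  | insert a s ha ih =>
    rw [Finset.sum_insert ha, Finset.sum_insert ha]
    exact (h a (Finset.mem_insert_self a s)).add
      (ih fun i hi => h i (Finset.mem_insert_of_mem hi))

theorem Rep.mul {L L' : Module.End Fq K} {c c' : K} (h : Rep L c) (h' : Rep L' c') :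
    Rep (L * L') (c * c') := by
  obtain ⟨P, h1, h2, h3⟩ := h
  have h4 : L = opr Fq P := LinearMap.ext fun x => by rw [h3, opr_apply h1]
  have h5 := Rep.sum (Finset.range (P.natDegree + 1))
    (fun i => LinearMap.mulLeft Fq (P.coeff (Nat.card Fq ^ i)) * (frob Fq K ^ i * L'))
    (fun i => P.coeff (Nat.card Fq ^ i) * (if i = 0 then c' else 0))
    (fun i _ => (Rep.frob_pow h' i).mulLeft _)
  have h6 : ∑ i ∈ Finset.range (P.natDegree + 1),
      P.coeff (Nat.card Fq ^ i) * (if i = 0 then c' else 0) = c * c' := by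
    rw [Finset.sum_eq_single 0]
    · rw [if_pos rfl, pow_zero, h2]
    · intro i _ hi
      rw [if_neg hi, mul_zero]
    · intro h7
      exact absurd (Finset.mem_range.mpr (Nat.succ_pos _)) h7
  rw [h6] at h5
  convert h5 using 1
  rw [h4, opr, Finset.sum_mul]
  refine Finset.sum_congr rfl fun i _ => ?_
  rw [mul_assoc]

theorem Rep.pow {L : Module.End Fq K} {c : K} (h : Rep L c) (n : ℕ) : Rep (L ^ n) (c ^ n) := by
  induction n with
  | zero => simpa using rep_one (Fq := Fq) (K := K)
  | succ n ih =>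
    rw [pow_succ, pow_succ]
    exact Rep.mul ih h

theorem Rep.aeval {L : Module.End Fq K} {c : K} (h : Rep L c) (a : Fq[X]) :
    Rep (Polynomial.aeval L a) (Polynomial.aeval c a) := by
  induction a using Polynomial.induction_on' with
  | add f g hf hg =>
    rw [map_add, map_add]
    exact hf.add hg
  | monomial m b =>
    rw [aeval_monomial, aeval_monomial, ← Algebra.smul_def]
    exact (Rep.pow h m).smul b

end ops

/-! ### Drinfeld modules as operators -/

section drinfeld

variable {Fq : Type*} [Field Fq] [Finite Fq] {K : Type*} [Field K] [Algebra Fq K] [Infinite K]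
  {T : K}

omit [Infinite K] in
theorem eq_of_natDegree_le {P : K[X]} (h : IsQPoly (Nat.card Fq) P) (hd : P.natDegree ≤ 1) :
    P = C (P.coeff 1) * X := by
  have h1 := eq_X_add_C_of_natDegree_le_one hd
  rw [h.coeff_zero one_lt_card, C_0, add_zero] at h1
  exact h1

/-- The constants act by multiplication. -/
theorem DrinfeldModule.map_const (ψ : DrinfeldModule Fq T) (c : Fq) :
    ψ.φ (C c) = C (algebraMap Fq K c) * X := by
  by_cases hc : c = 0
  · subst hc
    have h := ψ.map_add 0 0
    rw [add_zero] at h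
    rw [C_0, RingHom.map_zero, C_0, zero_mul]
    exact left_eq_add.mp h
  · have h1 : (ψ.φ (C c)).comp (ψ.φ (C c⁻¹)) = X := by
      rw [← ψ.map_mul, ← C_mul, mul_inv_cancel₀ hc, C_1, ψ.map_one]
    have h2 := congrArg natDegree h1
    rw [natDegree_comp, natDegree_X] at h2
    have h3 : (ψ.φ (C c)).natDegree = 1 := Nat.eq_one_of_mul_eq_one_right h2
    have h4 := eq_of_natDegree_le (ψ.isQPoly (C c)) h3.le
    rw [ψ.coeff_one, aeval_C] at h4
    exact h4

/-- The values of `ψ_a` are those of `a(ψ_T)`. -/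
theorem DrinfeldModule.eval_eq (ψ : DrinfeldModule Fq T) (a : Fq[X]) (x : K) :
    (ψ.φ a).eval x = aeval (opr Fq (ψ.φ X)) a x := by
  induction a using Polynomial.induction_on' generalizing x with
  | add f g hf hg =>
    rw [_root_.map_add, LinearMap.add_apply, ψ.map_add, eval_add, hf, hg]
  | monomial m b =>
    have h1 : ∀ (m : ℕ) (x : K), (ψ.φ (X ^ m)).eval x = (opr Fq (ψ.φ X) ^ m) x := by
      intro m
      induction m with
      | zero =>
        intro x
        rw [pow_zero, pow_zero, ψ.map_one, eval_X, Module.End.one_apply]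
      | succ m ih =>
        intro x
        rw [pow_succ', ψ.map_mul, eval_comp, ih, pow_succ', Module.End.mul_apply,
          opr_apply (ψ.isQPoly X)]
    rw [← C_mul_X_pow_eq_monomial, ψ.map_mul, ψ.map_const, mul_comp, C_comp, X_comp, eval_mul,
      eval_C, h1, _root_.map_mul, aeval_C, _root_.map_pow, aeval_X, ← Algebra.smul_def,
      ← Algebra.smul_def, LinearMap.smul_apply]

/-- The Drinfeld module defined by an operator. -/
noncomputable def ofOp (L : Module.End Fq K) (h : Rep L T) (hne : ∀ P : K[X], (∀ x, L x = P.eval x) →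
    P ≠ C T * X) : DrinfeldModule Fq T where
  φ a := (Rep.aeval h a).choose
  isQPoly a := (Rep.aeval h a).choose_spec.1
  map_one := by
    refine Polynomial.funext fun x => ?_
    rw [← (Rep.aeval h 1).choose_spec.2.2 x, _root_.map_one, Module.End.one_apply, eval_X]
  map_add a b := by
    refine Polynomial.funext fun x => ?_
    rw [eval_add, ← (Rep.aeval h (a + b)).choose_spec.2.2 x, ← (Rep.aeval h a).choose_spec.2.2 x,
      ← (Rep.aeval h b).choose_spec.2.2 x, _root_.map_add, LinearMap.add_apply]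
  map_mul a b := by
    refine Polynomial.funext fun x => ?_
    rw [eval_comp, ← (Rep.aeval h (a * b)).choose_spec.2.2 x, ← (Rep.aeval h a).choose_spec.2.2,
      ← (Rep.aeval h b).choose_spec.2.2 x, _root_.map_mul, Module.End.mul_apply]
  coeff_one a := (Rep.aeval h a).choose_spec.2.1
  ne := by
    apply hne
    intro x
    rw [← (Rep.aeval h X).choose_spec.2.2 x, aeval_X]

theorem ofOp_eval (L : Module.End Fq K) (h : Rep L T) (hne : ∀ P : K[X], (∀ x, L x = P.eval x) →
    P ≠ C T * X) (a : Fq[X]) (x : K) : ((ofOp L h hne).φ a).eval x = aeval L a x :=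
  ((Rep.aeval h a).choose_spec.2.2 x).symm

/-- The action of `a` on `K²`: `(x, y) ↦ (φ_a(x), ψ_a(y))`. -/
noncomputable def act (φ ψ : DrinfeldModule Fq T) (a : Fq[X])
    (x : (Set.univ : Set (Fin 2 → K))) : (Set.univ : Set (Fin 2 → K)) :=
  ⟨![(φ.φ a).eval ((x : Fin 2 → K) 0), (ψ.φ a).eval ((x : Fin 2 → K) 1)], Set.mem_univ _⟩

/-- The `A`-module `K²` with `(x, y) ↦ (φ_a(x), ψ_a(y))`. -/
noncomputable def pairMod (φ ψ : DrinfeldModule Fq T) :
    AMod Fq T (Set.univ : Set (Fin 2 → K)) where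
  Φ := act φ ψ
  isMorphism a := by
    refine ⟨![![φ.φ a, 0], ![0, ψ.φ a]], ?_, ?_⟩
    · intro i j
      fin_cases i <;> fin_cases j
      · exact φ.isQPoly a
      · exact isQPoly_zero
      · exact isQPoly_zero
      · exact ψ.isQPoly a
    · intro x i
      rw [ev_two]
      fin_cases i
      · simp [act]
      · simp [act]
  map_add a b x := by
    funext i
    fin_cases i <;> simp [act, φ.map_add, ψ.map_add]
  map_mul a b x := by
    apply Subtype.ext
    funext i
    fin_cases i <;> simp [act, φ.map_mul, ψ.map_mul]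
  map_const c x := by
    funext i
    fin_cases i <;> simp [act, φ.map_const, ψ.map_const, Algebra.smul_def]
  differential a f hf x _ i := by
    obtain ⟨h1, h2⟩ := hf
    have hq : 1 < Nat.card Fq := one_lt_card
    rw [Fin.sum_univ_two]
    have h00 : ∀ P : K[X], IsQPoly (Nat.card Fq) P → P.eval 0 = 0 := fun P hP =>
      hP.eval_zero hq
    fin_cases i
    · have h3 : f 0 0 = φ.φ a := by
        refine Polynomial.funext fun y => ?_
        have := h2 ⟨![y, 0], Set.mem_univ _⟩ 0
        rw [ev_two] at this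
        have h4 : (φ.φ a).eval y = (f 0 0).eval y + (f 0 1).eval 0 := by simpa [act] using this
        rw [h4, h00 _ (h1 0 1), add_zero]
      have h5 : f 0 1 = 0 := by
        refine Polynomial.funext fun y => ?_
        have := h2 ⟨![0, y], Set.mem_univ _⟩ 0
        rw [ev_two] at this
        have h4 : (φ.φ a).eval 0 = (f 0 0).eval 0 + (f 0 1).eval y := by simpa [act] using this
        rw [h00 _ (φ.isQPoly a), h00 _ (h1 0 0), zero_add] at h4
        rw [← h4, eval_zero]
      change (f 0 0).coeff 1 * x 0 + (f 0 1).coeff 1 * x 1 = _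
      rw [h3, h5, φ.coeff_one, coeff_zero, zero_mul, add_zero]
      rfl
    · have h3 : f 1 1 = ψ.φ a := by
        refine Polynomial.funext fun y => ?_
        have := h2 ⟨![0, y], Set.mem_univ _⟩ 1
        rw [ev_two] at this
        have h4 : (ψ.φ a).eval y = (f 1 0).eval 0 + (f 1 1).eval y := by simpa [act] using this
        rw [h4, h00 _ (h1 1 0), zero_add]
      have h5 : f 1 0 = 0 := by
        refine Polynomial.funext fun y => ?_
        have := h2 ⟨![y, 0], Set.mem_univ _⟩ 1
        rw [ev_two] at this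
        have h4 : (ψ.φ a).eval 0 = (f 1 0).eval y + (f 1 1).eval 0 := by simpa [act] using this
        rw [h00 _ (ψ.isQPoly a), h00 _ (h1 1 1), add_zero] at h4
        rw [← h4, eval_zero]
      change (f 1 0).coeff 1 * x 0 + (f 1 1).coeff 1 * x 1 = _
      rw [h3, h5, ψ.coeff_one, coeff_zero, zero_mul, zero_add]
      rfl

end drinfeld

/-! ### The construction -/

section main

variable {Fq : Type*} [Field Fq] [Finite Fq] {K : Type*} [Field K] [IsAlgClosed K] [Algebra Fq K]
  {T : K}

/-- `a(X ^ (q ^ k)) = a(X) ^ (q ^ k)` over `𝔽_q`. -/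
theorem expand_pow (a : Fq[X]) (k : ℕ) : a.comp (X ^ (Nat.card Fq ^ k)) = a ^ (Nat.card Fq ^ k) := by
  have := Fintype.ofFinite Fq
  induction k with
  | zero => simp
  | succ k ih =>
    have h1 : (X ^ (Nat.card Fq ^ (k + 1)) : Fq[X]) = (X ^ (Nat.card Fq ^ k)).comp (X ^ Nat.card Fq) := by
      rw [pow_comp, X_comp, ← pow_mul, pow_succ, mul_comm]
    rw [h1, ← comp_assoc, ih, pow_comp, ← expand_eq_comp_X_pow, Nat.card_eq_fintype_card,
      FiniteField.expand_card, ← pow_mul, pow_succ, mul_comm]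

/-- The `q ^ k`-power map as an automorphism of `K`. -/
theorem exists_sigma (Fq : Type*) [Field Fq] [Finite Fq] [Algebra Fq K] (k : ℕ) :
    ∃ σ : K ≃+* K, ∀ x, σ x = x ^ (Nat.card Fq ^ k) := by
  obtain ⟨p, l, hp, hl, hc, h⟩ := card_data Fq
  have := Fact.mk hp
  have : CharP K p := charK (Fq := Fq)
  refine ⟨iterateFrobeniusEquiv K p (l * k), fun x => ?_⟩
  rw [iterateFrobeniusEquiv_def, h, pow_mul]

/-- `(u x) ^ s = P (x ^ s)` and the linear coefficient of `u` is the `s`-th root of that of `P`. -/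
theorem exists_root {P : K[X]} (hP : IsQPoly (Nat.card Fq) P) (k : ℕ) :
    ∃ u : K[X], IsQPoly (Nat.card Fq) u ∧ u.natDegree = P.natDegree ∧
      (u.coeff 1) ^ (Nat.card Fq ^ k) = P.coeff 1 ∧
      ∀ x, (u.eval x) ^ (Nat.card Fq ^ k) = P.eval (x ^ (Nat.card Fq ^ k)) := by
  obtain ⟨σ, hσ⟩ := exists_sigma (K := K) Fq k
  refine ⟨P.map σ.symm.toRingHom, ?_, ?_, ?_, ?_⟩
  · intro m hm
    apply hP m
    intro h
    apply hm
    rw [coeff_map, h, map_zero]
  · exact natDegree_map_eq_of_injective σ.symm.injective P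
  · rw [coeff_map, ← hσ]
    exact σ.apply_symm_apply _
  · intro x
    rw [← hσ, ← hσ]
    have h1 : σ ((P.map σ.symm.toRingHom).eval x) =
        ((P.map σ.symm.toRingHom).map σ.toRingHom).eval (σ x) :=
      (eval_map_apply σ.toRingHom x).symm
    rw [h1, map_map]
    have h2 : σ.toRingHom.comp σ.symm.toRingHom = RingHom.id K := by
      ext x
      exact σ.apply_symm_apply x
    rw [h2, map_id]

/-- Points killed by a power of a surjective operator with a non-trivial kernel. -/
theorem infinite_killed {V : Type*} [AddCommGroup V] [Module Fq V] (L : Module.End Fq V)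
    (hsurj : ∀ y, ∃ x, L x = y) {x1 : V} (hx1 : L x1 = 0) (hx10 : x1 ≠ 0) :
    {x : V | ∃ N, (L ^ N) x = 0}.Infinite := by
  choose r hr using hsurj
  have hpow : ∀ N, (L ^ N) (r^[N] x1) = x1 := by
    intro N
    induction N with
    | zero => rfl
    | succ N ih => rw [Function.iterate_succ_apply', pow_succ, Module.End.mul_apply, hr, ih]
  refine Set.infinite_of_injective_forall_mem (f := fun N => r^[N] x1) ?_ ?_
  · intro M N hMN
    wlog hlt : M < N generalizing M N with H
    · rcases lt_or_eq_of_le (not_lt.mp hlt) with h | h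
      · exact (H hMN.symm h).symm
      · exact h.symm
    exfalso
    have h1 : (L ^ (M + 1)) (r^[M] x1) = 0 := by
      rw [pow_succ', Module.End.mul_apply, hpow, hx1]
    have hMN' : r^[M] x1 = r^[N] x1 := hMN
    rw [hMN'] at h1
    apply hx10
    rw [← hpow N, show N = (N - (M + 1)) + (M + 1) by omega, pow_add, Module.End.mul_apply,
      ← show N = (N - (M + 1)) + (M + 1) by omega, h1, map_zero]
  · intro N
    refine ⟨N + 1, ?_⟩
    rw [pow_succ', Module.End.mul_apply, hpow, hx1]

theorem surj_of {u : K[X]} (hd : 1 < u.natDegree) (y : K) : ∃ x, u.eval x = y := by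
  obtain ⟨x, hx⟩ := IsAlgClosed.exists_root (u - C y) (by
    intro h0
    have h1 : (u - C y).natDegree = u.natDegree := natDegree_sub_C
    have h2 := natDegree_eq_zero_iff_degree_le_zero.mpr h0.le
    omega)
  refine ⟨x, ?_⟩
  rw [IsRoot.def, eval_sub, eval_C, sub_eq_zero] at hx
  exact hx

theorem kernel_of {u : K[X]} (hu : IsQPoly (Nat.card Fq) u) (hd : 1 < u.natDegree)
    (h1 : u.coeff 1 ≠ 0) : ∃ x, u.eval x = 0 ∧ x ≠ 0 := by
  have h0 : u.coeff 0 = 0 := hu.coeff_zero one_lt_card
  have h2 : u = X * u.divX := by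
    have := (divX_mul_X_add u).symm
    rw [h0, C_0, add_zero, mul_comm] at this
    exact this
  have h3 : u.divX.natDegree = u.natDegree - 1 := natDegree_divX_eq_natDegree_tsub_one
  obtain ⟨x, hx⟩ := IsAlgClosed.exists_root u.divX (by
    intro h
    have h4 := natDegree_eq_zero_iff_degree_le_zero.mpr h.le
    omega)
  refine ⟨x, ?_, ?_⟩
  · rw [h2, eval_mul, show u.divX.eval x = 0 from hx, mul_zero]
  · rintro rfl
    apply h1
    have h5 : u.divX.eval 0 = 0 := hx
    rw [← coeff_zero_eq_eval_zero, coeff_divX, zero_add] at h5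
    exact h5

/-- The `q`-variety `{y = x ^ (q ^ k)}`. -/
theorem graph_isQVariety (k : ℕ) :
    IsQVariety (Nat.card Fq) {x : Fin 2 → K | x 1 = x 0 ^ (Nat.card Fq ^ k)} := by
  refine ⟨{![X ^ (Nat.card Fq ^ k), -X]}, ?_, ?_⟩
  · rintro P hP j
    rw [Set.mem_singleton_iff] at hP
    subst hP
    fin_cases j
    · intro m hm
      change (X ^ (Nat.card Fq ^ k) : K[X]).coeff m ≠ 0 at hm
      rw [coeff_X_pow] at hm
      refine ⟨k, ?_⟩
      by_contra h
      apply hm
      rw [if_neg h]
    · have h := (isQPoly_X (K := K) (q := Nat.card Fq)).C_mul (-1)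
      rw [map_neg, map_one, neg_one_mul] at h
      exact h
  · ext x
    have hev : ev (![X ^ (Nat.card Fq ^ k), -X] : Fin 2 → K[X]) x =
        x 0 ^ (Nat.card Fq ^ k) - x 1 := by
      rw [ev_two]
      change (X ^ (Nat.card Fq ^ k) : K[X]).eval (x 0) + (-X : K[X]).eval (x 1) = _
      rw [eval_pow, eval_X, eval_neg, eval_X, sub_eq_add_neg]
    constructor
    · intro h P hP
      rw [Set.mem_singleton_iff] at hP
      rw [hP, hev, sub_eq_zero]
      exact Eq.symm h
    · intro h
      have h1 := h _ rfl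
      rw [hev, sub_eq_zero] at h1
      exact h1.symm

/-- A `q`-variety in the curve is the curve or finite. -/
theorem finite_or_eq {k : ℕ} {G : Set (Fin 2 → K)} (hG : IsQVariety (Nat.card Fq) G)
    (hH : G ⊆ {x : Fin 2 → K | x 1 = x 0 ^ (Nat.card Fq ^ k)}) :
    G.Finite ∨ G = {x : Fin 2 → K | x 1 = x 0 ^ (Nat.card Fq ^ k)} := by
  obtain ⟨S, hS, rfl⟩ := hG
  by_cases h : ∀ P ∈ S, (P 0) + (P 1).comp (X ^ (Nat.card Fq ^ k)) = 0
  · right
    apply hH.antisymm
    intro x hx P hP
    have h1 := congrArg (Polynomial.eval (x 0)) (h P hP)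
    rw [eval_add, eval_comp, eval_pow, eval_X, eval_zero] at h1
    rw [ev_two, show x 1 = x 0 ^ (Nat.card Fq ^ k) from hx]
    exact h1
  · left
    push Not at h
    obtain ⟨P, hP, hne⟩ := h
    have hfin := (Polynomial.finite_setOfPred_isRoot hne)
    refine (hfin.image fun x : K => (![x, x ^ (Nat.card Fq ^ k)] : Fin 2 → K)).subset ?_
    intro x hx
    have hx1 : x 1 = x 0 ^ (Nat.card Fq ^ k) := hH hx
    refine ⟨x 0, ?_, ?_⟩
    · have h1 := hx P hP
      rw [ev_two, hx1] at h1
      change eval (x 0) (P 0 + (P 1).comp (X ^ (Nat.card Fq ^ k))) = 0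
      rw [eval_add, eval_comp, eval_pow, eval_X]
      exact h1
    · funext i
      fin_cases i
      · rfl
      · exact hx1.symm

end main

/-- **Q1 is false for products with an arbitrary Drinfeld module.** Let `𝔽_q` be a finite field, `K` an
algebraically closed field containing it and `T` in `K` transcendental over `𝔽_q`. For EVERY Drinfeld
module `ψ` over `K` and every `k ≥ 1` there is a Drinfeld module `φ` over `K` such that for the
`A`-module `F = K²`, `Φ_a(x, y) = (φ_a(x), ψ_a(y))`, and the `q`-variety `H = {y = x ^ (q ^ k)}`: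

* for `x` in `K` the point `(x, x ^ (q ^ k))` is a torsion point of `F` if and only if `x` is a torsion
  point of `φ`, and if and only if `x ^ (q ^ k)` is a torsion point of `ψ`; so both projections from
  `H ∩ Tor(F)` to `Tor(φ)` and to `Tor(ψ)` are bijective, and `H ∩ Tor(F)` is infinite;
* every `A`-module `G` in `F` with `G ⊆ H` is finite, and `G ∩ Tor(F)` never has finite index in
  `H ∩ Tor(F)`. -/
theorem result (Fq : Type*) [Field Fq] [Finite Fq] (K : Type*) [Field K] [IsAlgClosed K]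
    [Algebra Fq K] (T : K) (hT : Transcendental Fq T) (ψ : DrinfeldModule Fq T) (k : ℕ)
    (hk : 1 ≤ k) :
    ∃ (φ : DrinfeldModule Fq T) (M : AMod Fq T (Set.univ : Set (Fin 2 → K))),
      (∀ (a : Fq[X]) (x : (Set.univ : Set (Fin 2 → K))), (M.Φ a x : Fin 2 → K) =
        ![(φ.φ a).eval ((x : Fin 2 → K) 0), (ψ.φ a).eval ((x : Fin 2 → K) 1)]) ∧
      ∃ H : Set (Fin 2 → K), H = {x | x 1 = x 0 ^ (Nat.card Fq ^ k)} ∧
        IsQVariety (Nat.card Fq) H ∧ H ⊆ Set.univ ∧
        (∀ x : K, (![x, x ^ (Nat.card Fq ^ k)] ∈ M.Tor ↔ x ∈ φ.Tor) ∧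
          (![x, x ^ (Nat.card Fq ^ k)] ∈ M.Tor ↔ x ^ (Nat.card Fq ^ k) ∈ ψ.Tor)) ∧
        Set.BijOn (fun x : Fin 2 → K => x 0) (H ∩ M.Tor) φ.Tor ∧
        Set.BijOn (fun x : Fin 2 → K => x 1) (H ∩ M.Tor) ψ.Tor ∧
        (H ∩ M.Tor).Infinite ∧
        (∀ G : Set (Fin 2 → K), M.IsSub G → G ⊆ H → G.Finite) ∧
        ∀ G : Set (Fin 2 → K), M.IsSub G → G ⊆ H → ¬ FiniteIndexIn (G ∩ M.Tor) (H ∩ M.Tor) := by
  have hinf : Infinite K := IsAlgClosed.instInfinite
  have hq : 1 < Nat.card Fq := one_lt_card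
  set s : ℕ := Nat.card Fq ^ k with hs
  have hs1 : 1 < s := Nat.one_lt_pow (by omega) hq
  have hs0 : s ≠ 0 := by omega
  obtain ⟨u, hu, hud, hu1, hus⟩ := exists_root (ψ.isQPoly X) k
  rw [← hs] at hu1 hus
  have hTX : (ψ.φ X).coeff 1 = T := by rw [ψ.coeff_one, aeval_X]
  rw [hTX] at hu1
  have hdeg : 1 < u.natDegree := by
    rw [hud]
    by_contra h
    push Not at h
    apply ψ.ne
    rw [eq_of_natDegree_le (ψ.isQPoly X) h, hTX]
  set t : K := u.coeff 1 with ht
  have ht0 : t ≠ 0 := by
    intro h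
    apply hT
    rw [← hu1, h, zero_pow hs0]
    exact isAlgebraic_zero
  -- the operators
  set U : Module.End Fq K := opr Fq u with hU
  have hUx : ∀ x, U x = u.eval x := opr_apply hu
  have hUrep : Rep U t := rep_opr hu
  have hWrep : Rep (U ^ s) T := by
    rw [← hu1]
    exact Rep.pow hUrep s
  have hWne : ∀ P : K[X], (∀ x, (U ^ s) x = P.eval x) → P ≠ C T * X := by
    intro P hP hPT
    have h1 : ∀ (n : ℕ) (x : K), (U ^ n) x = (u.comp^[n] X).eval x := by
      intro n
      induction n with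
      | zero => intro x; simp
      | succ n ih =>
        intro x
        rw [pow_succ', Module.End.mul_apply, ih, hUx, Function.iterate_succ_apply', eval_comp]
    have h2 : P = u.comp^[s] X := Polynomial.funext fun x => by rw [← hP, h1]
    have h3 := congrArg natDegree h2
    rw [natDegree_iterate_comp, natDegree_X, mul_one, hPT] at h3
    have h4 : (C T * X : K[X]).natDegree ≤ 1 :=
      (natDegree_C_mul_le T X).trans natDegree_X_le
    have h5 : 1 < u.natDegree ^ s := Nat.one_lt_pow hs0 hdeg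
    omega
  let φ : DrinfeldModule Fq T := ofOp (U ^ s) hWrep hWne
  have hφ : ∀ (a : Fq[X]) (x : K), (φ.φ a).eval x = (aeval U (a ^ s)) x := by
    intro a x
    rw [ofOp_eval, ← expand_pow, aeval_comp, map_pow, aeval_X]
  -- the key relation
  have hV : ∀ (a : Fq[X]) (x : K), (aeval U a x) ^ s = (ψ.φ a).eval (x ^ s) := by
    intro a x
    rw [ψ.eval_eq]
    have hcomm : (frob Fq K ^ k) * U = opr Fq (ψ.φ X) * (frob Fq K ^ k) := by
      refine LinearMap.ext fun x => ?_
      rw [Module.End.mul_apply, Module.End.mul_apply, frob_pow_apply, frob_pow_apply, hUx, ← hs,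
        hus, opr_apply (ψ.isQPoly X)]
    have hcomm2 : ∀ a : Fq[X], (frob Fq K ^ k) * aeval U a =
        aeval (opr Fq (ψ.φ X)) a * (frob Fq K ^ k) := by
      intro a
      induction a using Polynomial.induction_on' with
      | add f g hf hg => rw [map_add, map_add, mul_add, add_mul, hf, hg]
      | monomial m b =>
        have h1 : ∀ m : ℕ, (frob Fq K ^ k) * U ^ m = opr Fq (ψ.φ X) ^ m * (frob Fq K ^ k) := by
          intro m
          induction m with
          | zero => simp
          | succ m ih => rw [pow_succ, ← mul_assoc, ih, mul_assoc, hcomm, ← mul_assoc, ← pow_succ]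
        rw [aeval_monomial, aeval_monomial, ← Algebra.smul_def, ← Algebra.smul_def,
          mul_smul_comm, h1, smul_mul_assoc]
    have h2 := LinearMap.congr_fun (hcomm2 a) x
    rw [Module.End.mul_apply, Module.End.mul_apply, frob_pow_apply, frob_pow_apply, ← hs] at h2
    exact h2
  let M := pairMod φ ψ
  have hM : ∀ (a : Fq[X]) (x : (Set.univ : Set (Fin 2 → K))), (M.Φ a x : Fin 2 → K) =
      ![(φ.φ a).eval ((x : Fin 2 → K) 0), (ψ.φ a).eval ((x : Fin 2 → K) 1)] := fun a x => rfl
  have hMTor : ∀ (a : Fq[X]) (x : K), a ≠ 0 → (φ.φ a).eval x = 0 →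
      (ψ.φ a).eval (x ^ s) = 0 → ![x, x ^ s] ∈ M.Tor := by
    intro a x ha h1 h2
    refine ⟨Set.mem_univ _, a, ha, ?_⟩
    rw [hM]
    funext i
    fin_cases i
    · exact h1
    · exact h2
  have hMTor' : ∀ x y : K, ![x, y] ∈ M.Tor → x ∈ φ.Tor ∧ y ∈ ψ.Tor := by
    rintro x y ⟨h1, a, ha, h2⟩
    rw [hM] at h2
    exact ⟨⟨a, ha, congrFun h2 0⟩, ⟨a, ha, congrFun h2 1⟩⟩
  have hφT : ∀ x : K, x ∈ φ.Tor → ![x, x ^ s] ∈ M.Tor := by
    rintro x ⟨a, ha, hx⟩
    rw [hφ] at hx
    refine hMTor (a ^ s) x (pow_ne_zero _ ha) ?_ ?_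
    · rw [hφ, ← Nat.sub_add_cancel hs1.le, pow_add (a ^ _), pow_one, map_mul,
        Nat.sub_add_cancel hs1.le, Module.End.mul_apply, hx, map_zero]
    · rw [← hV, hx, zero_pow hs0]
  have hψT : ∀ x : K, x ^ s ∈ ψ.Tor → ![x, x ^ s] ∈ M.Tor := by
    rintro x ⟨a, ha, hx⟩
    have h1 : aeval U a x = 0 := by
      rw [← hV] at hx
      exact (pow_eq_zero_iff hs0).mp hx
    refine hMTor a x ha ?_ hx
    rw [hφ, ← Nat.sub_add_cancel hs1.le, pow_add, pow_one, map_mul, Module.End.mul_apply, h1,
      map_zero]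
  have hiff : ∀ x : K, (![x, x ^ s] ∈ M.Tor ↔ x ∈ φ.Tor) ∧
      (![x, x ^ s] ∈ M.Tor ↔ x ^ s ∈ ψ.Tor) := fun x =>
    ⟨⟨fun h => (hMTor' _ _ h).1, hφT x⟩, ⟨fun h => (hMTor' _ _ h).2, hψT x⟩⟩
  have hroot : ∀ y : K, ∃ x : K, x ^ s = y := fun y =>
    IsAlgClosed.exists_pow_nat_eq y (by omega)
  have hinj : ∀ x y : K, x ^ s = y ^ s → x = y := by
    obtain ⟨σ, hσ⟩ := exists_sigma (K := K) Fq k
    intro x y h
    apply σ.injective
    rw [hσ, hσ, ← hs, h]
  set H : Set (Fin 2 → K) := {x | x 1 = x 0 ^ s} with hH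
  have hform : ∀ x ∈ H, x = ![x 0, x 0 ^ s] := by
    intro x hx
    funext i
    fin_cases i
    · rfl
    · exact hx
  have hb1 : Set.BijOn (fun x : Fin 2 → K => x 0) (H ∩ M.Tor) φ.Tor := by
    refine ⟨?_, ?_, ?_⟩
    · rintro x ⟨hx, hxT⟩
      rw [hform x hx] at hxT
      exact (hMTor' _ _ hxT).1
    · rintro x ⟨hx, _⟩ y ⟨hy, _⟩ hxy
      have hxy' : x 0 = y 0 := hxy
      rw [hform x hx, hform y hy, hxy']
    · intro x hx
      exact ⟨![x, x ^ s], ⟨rfl, hφT x hx⟩, rfl⟩
  have hb2 : Set.BijOn (fun x : Fin 2 → K => x 1) (H ∩ M.Tor) ψ.Tor := by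
    refine ⟨?_, ?_, ?_⟩
    · rintro x ⟨hx, hxT⟩
      rw [hform x hx] at hxT
      have := (hMTor' _ _ hxT).2
      rw [show x 0 ^ s = x 1 from (show x 1 = x 0 ^ s from hx).symm] at this
      exact this
    · rintro x ⟨hx, _⟩ y ⟨hy, _⟩ hxy
      have hxy' : x 1 = y 1 := hxy
      have h0 : x 0 = y 0 := hinj _ _ (by
        rw [← show x 1 = x 0 ^ s from hx, ← show y 1 = y 0 ^ s from hy, hxy'])
      rw [hform x hx, hform y hy, h0]
    · intro y hy
      obtain ⟨x, rfl⟩ := hroot y
      exact ⟨![x, x ^ s], ⟨rfl, hψT x hy⟩, rfl⟩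
  have h1 : (H ∩ M.Tor).Infinite := by
    obtain ⟨x1, hx1, hx10⟩ := kernel_of hu hdeg ht0
    have h2 := infinite_killed U (fun y => by
      obtain ⟨x, hx⟩ := surj_of hdeg y
      exact ⟨x, by rw [hUx, hx]⟩) (x1 := x1) (by rw [hUx, hx1]) hx10
    refine Set.Infinite.mono ?_ (h2.image (f := fun x : K => (![x, x ^ s] : Fin 2 → K)) ?_)
    · rintro _ ⟨x, ⟨N, hN⟩, rfl⟩
      refine ⟨rfl, hψT x ⟨X ^ N, pow_ne_zero _ X_ne_zero, ?_⟩⟩
      rw [← hV, map_pow, aeval_X, hN, zero_pow hs0]
    · intro x _ y _ hxy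
      exact congrFun hxy 0
  have h2 : ∀ G : Set (Fin 2 → K), M.IsSub G → G ⊆ H → G.Finite := by
    rintro G ⟨hG, _, hst⟩ hGH
    rcases finite_or_eq (k := k) hG hGH with h | h
    · exact h
    · exfalso
      have h3 : ∀ x : K, (U ^ s) x = U x := by
        intro x
        have h4 := hst X ⟨![x, x ^ s], Set.mem_univ _⟩ (by rw [h]; rfl)
        rw [h] at h4
        have h5 : (ψ.φ X).eval (x ^ s) = ((φ.φ X).eval x) ^ s := h4
        rw [← hV, aeval_X, hφ, map_pow, aeval_X] at h5
        exact (hinj _ _ h5).symm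
      have h6 : t ^ s = t := by
        obtain ⟨P, h7, h8, h9⟩ := hUrep
        have h10 := rep_unique hWrep (P := P) (fun x => by rw [h3, h9])
        rw [h8] at h10
        rw [hu1, h10]
      apply hT
      refine ⟨X ^ s - X, ?_, ?_⟩
      · intro h7
        have h8 := congrArg natDegree h7
        rw [natDegree_zero] at h8
        have h9 : (X ^ s - X : Fq[X]).natDegree = s := by
          have h10 : (X : Fq[X]).natDegree < (X ^ s : Fq[X]).natDegree := by
            rw [natDegree_X, natDegree_X_pow]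
            exact hs1
          rw [natDegree_sub_eq_left_of_natDegree_lt h10, natDegree_X_pow]
        omega
      · rw [map_sub, map_pow, aeval_X, ← hu1, h6, h6, sub_self]
  refine ⟨φ, M, hM, H, rfl, graph_isQVariety k, Set.subset_univ _, hiff, hb1, hb2, h1, h2, ?_⟩
  rintro G hG hGH ⟨S, hS⟩
  apply h1
  have hfin := h2 G hG hGH
  refine ((S.finite_toSet.prod hfin).image fun z : (Fin 2 → K) × (Fin 2 → K) =>
    z.2 + z.1).subset ?_
  intro y hy
  obtain ⟨s', hs', hys⟩ := hS y hy
  exact ⟨(s', y - s'), ⟨hs', hys.1⟩, by simp⟩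

end Pool.Agent.Results.MP_795114_nt.EveryDrinfeldModule
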